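import Pool.Agent.H40.Mb2

set_option autoImplicit false

namespace Pool.Agent.Results.MP_0c777d_lc.Continuum

open Cardinal

/-- every game on the boards `K` with moves in `L` is determined (as in the frozen statement) -/
def D (L K : Type) : Prop :=
  ∀ A : Set (ℕ → L),
    (∃ σ : List (K → L) → (K → L), ∀ f : ℕ → K → L,
        (∀ n : ℕ, f (2 * n) = σ (List.ofFn (fun i : Fin (2 * n) => f i.val))) →
        ∃ α : K, (fun n => f n α) ∈ A) ∨
    (∃ τ : List (K → L) → (K → L), ∀ f : ℕ → K → L,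
        (∀ n : ℕ, f (2 * n + 1) = τ (List.ofFn (fun i : Fin (2 * n + 1) => f i.val))) →
        ∀ α : K, (fun n => f n α) ∉ A)

theorem result (L K : Type) (hK : 1 ≤ #K) (h : D L K) (μ : Cardinal.{0}) (a : 2 ≤ μ) (b : μ ≤ #L)
    (c : μ ^ ℵ₀ = 2 ^ (μ + ℵ₀)) : 2 ^ (μ + ℵ₀) ≤ #K := by
  obtain ⟨B, rfl⟩ : ∃ B : Type, #B = μ := ⟨μ.out, Cardinal.mk_out μ⟩
  obtain ⟨d, -⟩ := Cardinal.two_le_iff.1 a
  have e : #(ℕ → B) = 2 ^ (#B + ℵ₀) := by rw [← c]; simp
  rw [← e]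
  refine Pool.Agent.H40.Mb.main' L K B d b ?_ hK h
  have n : ℵ₀ ≤ #B + ℵ₀ := le_add_self
  rw [e, ← Cardinal.power_def]
  calc #B ^ #(List B) ≤ (2 ^ (#B + ℵ₀)) ^ #(List B) :=
        Cardinal.power_le_power_right (le_self_add.trans (Cardinal.cantor _).le)
    _ ≤ (2 ^ (#B + ℵ₀)) ^ (#B + ℵ₀) := Cardinal.power_le_power_left
        (Cardinal.power_ne_zero _ two_ne_zero)
        ((Cardinal.mk_list_le_max B).trans (max_le n le_self_add))
    _ = 2 ^ (#B + ℵ₀) := by rw [← Cardinal.power_mul, Cardinal.mul_eq_self n]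

end Pool.Agent.Results.MP_0c777d_lc.Continuum
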