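import Pool.Agent.H40.Mb3

set_option autoImplicit false

namespace Pool.Agent.Results.MP_0c777d_lc.Fails

open Cardinal

/-- every game on the boards `K` with moves in `L` is determined (as in the frozen statement) -/
def D (L K : Type) : Prop :=
  ∀ A : Set (ℕ → L),
    (∃ σ : List (K → L) → (K → L), ∀ f : ℕ → K → L,
        (∀ n : ℕ, f (2 * n) = σ (List.ofFn (fun i : Fin (2 * n) => f i.val))) →
        ∃ α : K, (fun n => f n α) ∈ A) ∨
    (∃ τ : List (K → L) → (K → L), ∀ f : ℕ → K → L,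
        (∀ n : ℕ, f (2 * n + 1) = τ (List.ofFn (fun i : Fin (2 * n + 1) => f i.val))) →
        ∀ α : K, (fun n => f n α) ∉ A)

theorem result (L K : Type) (hL : ℵ₀ ≤ #L) (hK : #K = Order.succ #L) (I : Set (Set K))
    (h : Pool.Agent.H40.Mb.Laver I) : D L K ∧ #K < Order.succ (2 ^ #L) :=
  ⟨Pool.Agent.H40.Mb.laver L K hL hK I h,
    Order.lt_succ_iff.2 (hK ▸ Order.succ_le_of_lt (Cardinal.cantor _))⟩

end Pool.Agent.Results.MP_0c777d_lc.Fails
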